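import Pool.Agent.J4H20.LV.Stm

/-!
Project LV of helper20 (MP_176ace_nt): (DSC).
-/

set_option autoImplicit false

namespace Pool.Agent.J4H57.LV

open Polynomial NumberField Pool.Agent.J4H20.LV IsDedekindDomain

section val
variable {K : Type} [Field K] {Γ : Type*} [LinearOrderedCommGroupWithZero Γ] (V : Valuation K Γ)

lemma v_aeval_le (hV : ∀ n : ℤ, V (n : K) ≤ 1) (r : ℤ[X]) (θ : K) (N : ℕ) (hr : r.degree < (N + 1 : ℕ))
    (hθ : 1 ≤ V θ) : V (aeval θ r) ≤ V θ ^ N := by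
  have h1 : r.natDegree ≤ N := by
    by_cases h0 : r = 0
    · simp [h0]
    · have := (natDegree_lt_iff_degree_lt h0).mpr hr
      omega
  rw [aeval_eq_sum_range]
  refine Valuation.map_sum_le V fun i hi => ?_
  rw [Finset.mem_range] at hi
  rw [zsmul_eq_mul, map_mul, map_pow]
  calc V (r.coeff i : K) * V θ ^ i ≤ 1 * V θ ^ i := mul_le_mul_left (hV _) _
    _ = V θ ^ i := one_mul _
    _ ≤ V θ ^ N := pow_le_pow_right₀ hθ (by omega)

lemma v_aeval_monic (hV : ∀ n : ℤ, V (n : K) ≤ 1) (g : ℤ[X]) (hg : g.Monic) (θ : K)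
    (hθ : 1 < V θ) : V (aeval θ g) = V θ ^ g.natDegree := by
  rcases Nat.eq_zero_or_pos g.natDegree with h0 | h0
  · have h1 := eq_C_of_natDegree_eq_zero h0
    have h2 : g.coeff 0 = 1 := by rw [← h0]; exact hg
    rw [h0, h1, h2]; simp
  obtain ⟨N, hN⟩ : ∃ N, g.natDegree = N + 1 := ⟨g.natDegree - 1, by omega⟩
  have h1 : g = X ^ (N + 1) + g.eraseLead := by
    conv_lhs => rw [← g.eraseLead_add_C_mul_X_pow]
    rw [hg.leadingCoeff, hN]; simp [add_comm]
  have h2 : g.eraseLead.degree < (N + 1 : ℕ) := by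
    rw [← hN]
    have := degree_eraseLead_lt hg.ne_zero
    rwa [degree_eq_natDegree hg.ne_zero] at this
  have h3 := v_aeval_le V hV g.eraseLead θ N h2 hθ.le
  have h4 : V θ ^ N < V θ ^ (N + 1) := pow_lt_pow_right₀ hθ (Nat.lt_succ_self _)
  rw [hN]
  conv_lhs => rw [h1]
  rw [map_add, map_pow, aeval_X, Valuation.map_add_eq_of_lt_left, map_pow]
  rw [map_pow]
  exact h3.trans_lt h4

/-- `v((z + w)^m - z^m) = v(z)^(m-1) v(w)` for `v(z) > v(w)`, `v(m) = 1` -/
lemma v_big (m : ℕ) (hm : 0 < m) (z w : K) (hz : V w < V z) (hmv : V (m : K) = 1) :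
    V ((z + w) ^ m - z ^ m) = V z ^ (m - 1) * V w := by
  have hz0 : z ≠ 0 := by rintro rfl; simp at hz
  obtain ⟨u, hu⟩ : ∃ u : K, u = w / z := ⟨_, rfl⟩
  have hVz0 : V z ≠ 0 := (Valuation.ne_zero_iff V).mpr hz0
  have hVu : V u = V w / V z := by rw [hu, map_div₀]
  have hVu1 : V u < 1 := by rw [hVu]; exact (div_lt_one₀ (zero_lt_iff.mpr hVz0)).mpr hz
  obtain ⟨U, hU⟩ : ∃ U : V.integer, (U : K) = u := ⟨⟨u, hVu1.le⟩, rfl⟩
  obtain ⟨k, hk⟩ := powAddExpansion (1 : V.integer) U m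
  have hk' : (1 + u) ^ m = 1 + m * u + (k : K) * u ^ 2 := by
    have := congrArg (Subtype.val : V.integer → K) hk
    push_cast at this
    rw [hU] at this
    simpa using this
  have hcz : z + w = z * (1 + u) := by rw [hu]; field_simp
  have e1 : (z + w) ^ m - z ^ m = z ^ m * u * (m + k * u) := by
    rw [hcz, mul_pow, hk']; ring
  have h1 : V ((m : K) + k * u) = 1 := by
    rw [Valuation.map_add_eq_of_lt_left, hmv]
    rw [map_mul, hmv]
    calc V (k : K) * V u ≤ 1 * V u := mul_le_mul_left k.2 _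
      _ < 1 := by rw [one_mul]; exact hVu1
  rw [e1, map_mul, map_mul, h1, mul_one, map_pow, hVu]
  obtain ⟨n, rfl⟩ : ∃ n, m = n + 1 := ⟨m - 1, by omega⟩
  rw [Nat.add_sub_cancel, pow_succ, mul_assoc, mul_div_cancel₀ _ hVz0]

theorem core {m e j k : ℕ} (D : DatL m e j k) (c M : ℤ) (q : ℕ) (θ : K)
    (hV : ∀ n : ℤ, V (n : K) ≤ 1) (hq : V (q : K) < 1) (hq0 : V (q : K) ≠ 0) (hc : V (c : K) = 1)
    (hmv : V (m : K) = 1) (hM : V (M : K) = V (q : K))
    (hθ : aeval θ (HL m D.g D.r D.h c M) = 0) (h1 : 1 < V θ) :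
    V (q : K) * V θ ^ (e - j) = 1 := by
  obtain ⟨z, hz⟩ : ∃ z : K, z = (M : K) * aeval θ D.g := ⟨_, rfl⟩
  obtain ⟨w, hw⟩ : ∃ w : K, w = (c : K) * aeval θ D.h := ⟨_, rfl⟩
  have hm2 := D.hm
  have hm0 : m ≠ 0 := by omega
  have heq : (z + w) ^ m = (M : K) ^ m * (aeval θ D.g ^ m + aeval θ D.r) := by
    have := hθ
    unfold HL at this
    simp only [map_sub, map_pow, map_add, map_mul, eq_intCast,
      map_intCast] at this
    rw [hz, hw]
    exact sub_eq_zero.mp this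
  have heq2 : (z + w) ^ m - z ^ m = (M : K) ^ m * aeval θ D.r := by
    rw [heq, hz]; ring
  have hMp : V (M : K) < 1 := by rw [hM]; exact hq
  have hg : V (aeval θ D.g) = V θ ^ e := by
    rw [v_aeval_monic V hV D.g D.hg θ h1, D.hgn]
  have hh : V (aeval θ D.h) = V θ ^ j := by
    rw [v_aeval_monic V hV D.h D.hh θ h1, D.hhn]
  have hVz : V z = V (q : K) * V θ ^ e := by rw [hz, map_mul, hM, hg]
  have hVw : V w = V θ ^ j := by rw [hw, map_mul, hc, hh, one_mul]
  have hw1 : 1 ≤ V w := by rw [hVw]; exact one_le_pow_of_one_le' h1.le _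
  have hVθ0 : 0 < V θ := lt_of_le_of_lt zero_le h1
  have hje := D.hje
  have hep : 1 ≤ (m - 1) * e := Nat.mul_pos (by omega) (by omega)
  have hr : V (aeval θ D.r) < V θ ^ ((m - 1) * e) := by
    obtain ⟨N, hN⟩ : ∃ N, (m - 1) * e = N + 1 := ⟨(m - 1) * e - 1, by omega⟩
    have := v_aeval_le V hV D.r θ N (by rw [← hN]; exact D.hr) h1.le
    rw [hN]
    exact this.trans_lt (pow_lt_pow_right₀ h1 (Nat.lt_succ_self _))
  have hlt : V ((z + w) ^ m - z ^ m) < V (q : K) * V z ^ (m - 1) := by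
    rw [heq2, map_mul, map_pow, hM]
    have e1 : V (q : K) * V z ^ (m - 1) = V (q : K) ^ m * V θ ^ ((m - 1) * e) := by
      rw [hVz, mul_pow, ← pow_mul, mul_comm e (m - 1), ← mul_assoc, ← pow_succ',
        Nat.sub_add_cancel (by omega)]
    rw [e1]
    exact mul_lt_mul_of_pos_left hr (pow_pos (zero_lt_iff.mpr hq0) _)
  have key : V z ^ (m - 1) * V w ≤ V ((z + w) ^ m - z ^ m) → False := by
    intro h
    have h2 : V z ^ (m - 1) ≤ V z ^ (m - 1) * V w := le_mul_of_one_le_right' hw1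
    have h3 : V (q : K) * V z ^ (m - 1) ≤ V z ^ (m - 1) := by
      calc V (q : K) * V z ^ (m - 1) ≤ 1 * V z ^ (m - 1) := mul_le_mul_left hq.le _
        _ = _ := one_mul _
    exact absurd (((h3.trans h2).trans h).trans_lt hlt) (lt_irrefl _)
  have hzw : V z = V w := by
    rcases lt_trichotomy (V z) (V w) with h | h | h
    · exfalso
      apply key
      have h2 : V (z + w) = V w := Valuation.map_add_eq_of_lt_right V h
      have h4 : V (z ^ m) < V ((z + w) ^ m) := by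
        rw [map_pow, map_pow, h2]
        exact pow_lt_pow_left₀ h zero_le hm0
      rw [Valuation.map_sub_eq_of_lt_left V h4, map_pow, h2]
      calc V z ^ (m - 1) * V w ≤ V w ^ (m - 1) * V w :=
            mul_le_mul_left (pow_le_pow_left₀ zero_le h.le _) _
        _ = V w ^ m := by rw [← pow_succ, Nat.sub_add_cancel (by omega)]
    · exact h
    · exfalso
      apply key
      rw [v_big V m (by omega) z w h hmv]
  rw [hVz, hVw] at hzw
  have h5 : V θ ^ e = V θ ^ (e - j) * V θ ^ j := by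
    rw [← pow_add, Nat.sub_add_cancel (by omega)]
  rw [h5, ← mul_assoc] at hzw
  exact mul_right_cancel₀ (pow_ne_zero _ hVθ0.ne') (hzw.trans (one_mul _).symm)

end val

/-- an irreducible polynomial, not 0 modulo `q`, with leading coefficient divisible by `q`: its zero is not integral at some
prime above `q` -/
theorem exists_pole (F : ℤ[X]) (q : ℕ) (K : Type) [Field K] [NumberField K] (θ : K) (hq : q.Prime)
    (hF : Irreducible (F.map (Int.castRingHom ℚ))) (hθ : aeval θ F = 0)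
    (hlc : (q : ℤ) ∣ F.leadingCoeff) (hFq : ¬ C (q : ℤ) ∣ F) :
    ∃ v : HeightOneSpectrum (𝓞 K), ((q : ℤ) : 𝓞 K) ∈ v.asIdeal ∧ 1 < v.valuation K θ := by
  by_contra hcon
  push Not at hcon
  have hqp : Prime (q : ℤ) := Nat.prime_iff_prime_int.mp hq
  -- a multiple that is integral
  obtain ⟨Dd, hD0, hDi⟩ : ∃ d : ℤ, d ≠ 0 ∧ IsIntegral ℤ ((d : K) * θ) := by
    have hal : IsAlgebraic ℤ θ := ⟨F, fun h => by rw [h] at hFq; exact hFq (dvd_zero _), hθ⟩
    obtain ⟨d, hd, hy⟩ := hal.exists_integral_multiple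
    exact ⟨d, hd, by rwa [zsmul_eq_mul] at hy⟩
  obtain ⟨t, d, hqd, hDd⟩ : ∃ (t : ℕ) (d : ℤ), ¬ (q : ℤ) ∣ d ∧ Dd = (q : ℤ) ^ t * d := by
    have hfin : FiniteMultiplicity (q : ℤ) Dd :=
      Int.finiteMultiplicity_iff.mpr ⟨by simpa using hq.ne_one, hD0⟩
    obtain ⟨d, h1, h2⟩ := hfin.exists_eq_pow_mul_and_not_dvd
    exact ⟨_, d, h2, h1⟩
  have hint : IsIntegral ℤ ((d : K) * θ) := by
    have hmem : (d : K) * θ ∈ (algebraMap (𝓞 K) K).range := by
      apply HeightOneSpectrum.mem_integers_of_valuation_le_one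
      intro v
      by_cases hv : ((q : ℤ) : 𝓞 K) ∈ v.asIdeal
      · have h1 := hcon v hv
        rw [map_mul]
        refine mul_le_one' ?_ h1
        have : (d : K) = algebraMap (𝓞 K) K (d : 𝓞 K) := by simp
        rw [this]; exact v.valuation_le_one _
      · have h1 : v.valuation K ((Dd : K) * θ) ≤ 1 := by
          have : (Dd : K) * θ = algebraMap (𝓞 K) K ⟨_, hDi⟩ := rfl
          rw [this]; exact v.valuation_le_one _
        have h2 : v.valuation K (q : K) = 1 := by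
          have h3 : (q : K) = algebraMap (𝓞 K) K ((q : ℤ) : 𝓞 K) := by simp
          rw [h3, v.valuation_of_algebraMap]
          refine le_antisymm (v.intValuation_le_one _) (not_lt.mp fun h => hv ?_)
          rwa [v.intValuation_lt_one_iff_mem] at h
        rw [hDd] at h1
        push_cast at h1
        rwa [mul_assoc, map_mul, map_pow, h2, one_pow, one_mul] at h1
    obtain ⟨y, hy⟩ := hmem
    rw [← hy]
    exact y.2
  obtain ⟨P, hP, hPθ⟩ := hint
  -- Gauss
  have hd0 : d ≠ 0 := by rintro rfl; exact hqd (dvd_zero _)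
  obtain ⟨Q, hQ⟩ : ∃ Q : ℤ[X], Q = P.comp (C d * X) := ⟨_, rfl⟩
  have hQθ : aeval θ Q = 0 := by
    rw [hQ, aeval_comp]
    have : aeval θ (C d * X : ℤ[X]) = (d : K) * θ := by simp
    rw [this]; exact hPθ
  have hQlc : Q.leadingCoeff = d ^ P.natDegree := by
    rw [hQ, leadingCoeff_comp (by rw [natDegree_C_mul_X d hd0]; exact one_ne_zero), hP.leadingCoeff,
      leadingCoeff_C_mul_X, one_mul]
  have hQ0 : Q ≠ 0 := by
    intro h; rw [h, leadingCoeff_zero] at hQlc
    exact pow_ne_zero _ hd0 hQlc.symm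
  have hF0 : F ≠ 0 := by rintro rfl; exact hFq (dvd_zero _)
  have hdvd : F.map (Int.castRingHom ℚ) ∣ Q.map (Int.castRingHom ℚ) := by
    have h1 : minpoly ℚ θ ∣ Q.map (Int.castRingHom ℚ) := minpoly.dvd ℚ θ (by
      rw [← hQθ]; exact aeval_map_algebraMap ℚ θ Q)
    have h2 : minpoly ℚ θ ∣ F.map (Int.castRingHom ℚ) := minpoly.dvd ℚ θ (by
      rw [← hθ]; exact aeval_map_algebraMap ℚ θ F)
    have h3 : Associated (minpoly ℚ θ) (F.map (Int.castRingHom ℚ)) :=
      (minpoly.irreducible (Algebra.IsIntegral.isIntegral θ)).associated_of_dvd hF h2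
    exact h3.symm.dvd.trans h1
  have hdvd2 : F.primPart ∣ Q.primPart := by
    rw [IsPrimitive.Int.dvd_iff_map_cast_dvd_map_cast _ _ F.isPrimitive_primPart]
    have hu : ∀ G : ℤ[X], G ≠ 0 → Associated (G.primPart.map (Int.castRingHom ℚ))
        (G.map (Int.castRingHom ℚ)) := by
      intro G hG
      have h1 : G.map (Int.castRingHom ℚ) =
          C (G.content : ℚ) * G.primPart.map (Int.castRingHom ℚ) := by
        conv_lhs => rw [G.eq_C_content_mul_primPart]
        simp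
      have h2 : IsUnit (C (G.content : ℚ)) := by
        rw [isUnit_C, isUnit_iff_ne_zero]
        exact_mod_cast mt content_eq_zero_iff.mp hG
      rw [h1, mul_comm]
      exact associated_mul_unit_right _ _ h2
    exact ((hu F hF0).dvd.trans hdvd).trans (hu Q hQ0).symm.dvd
  have hlcG : ∀ G : ℤ[X], G.leadingCoeff = G.content * G.primPart.leadingCoeff := by
    intro G
    conv_lhs => rw [G.eq_C_content_mul_primPart, leadingCoeff_mul, leadingCoeff_C]
  have h1 : F.primPart.leadingCoeff ∣ d ^ P.natDegree := by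
    rw [← hQlc, hlcG Q]
    obtain ⟨A, hA⟩ := hdvd2
    rw [hA, leadingCoeff_mul]
    exact Dvd.dvd.mul_left (dvd_mul_right _ _) _
  have h2 : (q : ℤ) ∣ F.primPart.leadingCoeff := by
    rw [hlcG F] at hlc
    rcases hqp.dvd_or_dvd hlc with h | h
    · exact absurd ((C_dvd_iff_dvd_coeff _ _).mpr fun n => h.trans (content_dvd_coeff n)) hFq
    · exact h
  exact hqd (hqp.dvd_of_dvd_pow (h2.trans h1))

theorem t_DSC : S_NAT → S_DSC := by
  intro hNAT m e j k D c M q K _ _ θ hq hcM hc0 hM0 hqM hqM2 hqm hirr hθ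
  have hqp : Prime (q : ℤ) := Nat.prime_iff_prime_int.mp hq
  have hm2 := D.hm
  have hje := D.hje
  have hqc : ¬ (q : ℤ) ∣ c := fun h => hqp.not_isUnit (hcM.isUnit_of_dvd' h hqM)
  obtain ⟨M', hM'⟩ := hqM
  have hqM' : ¬ (q : ℤ) ∣ M' := fun h => hqM2 (by rw [hM', pow_two]; exact mul_dvd_mul_left _ h)
  have hlc : (q : ℤ) ∣ (HL m D.g D.r D.h c M).leadingCoeff := by
    rw [(hNAT m e j k D c M hc0 hM0).2]
    refine Dvd.dvd.mul_left ?_ _
    exact dvd_pow ⟨M', hM'⟩ (by omega)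
  have hCq : Prime (C (q : ℤ)) := prime_C_iff.mpr hqp
  have hFq : ¬ C (q : ℤ) ∣ HL m D.g D.r D.h c M := by
    intro h
    have hCM : C (q : ℤ) ∣ C M := ⟨C M', by rw [hM', C_mul]⟩
    have h1 : C (q : ℤ) ∣ (C M * D.g + C c * D.h) ^ m := by
      have h2 : C (q : ℤ) ∣ C (M ^ m) * (D.g ^ m + D.r) := by
        refine Dvd.dvd.mul_right ?_ _
        rw [C_pow]; exact dvd_pow hCM (by omega)
      have := dvd_add h h2
      unfold HL at this
      simpa using this
    have h2 : C (q : ℤ) ∣ C M * D.g + C c * D.h := hCq.dvd_of_dvd_pow h1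
    have h3 : C (q : ℤ) ∣ C c * D.h := (dvd_add_right (hCM.mul_right _)).mp h2
    rcases hCq.dvd_or_dvd h3 with h4 | h4
    · exact hqc (by simpa using (C_dvd_iff_dvd_coeff _ _).mp h4 0)
    · have h5 := (C_dvd_iff_dvd_coeff _ _).mp h4 D.h.natDegree
      have h6 : D.h.coeff D.h.natDegree = 1 := D.hh
      rw [h6] at h5
      exact hqp.not_isUnit (isUnit_of_dvd_one h5)
  obtain ⟨v, hqP, hVθ⟩ := exists_pole _ q K θ hq hirr hθ hlc hFq
  have hVi : ∀ n : ℤ, v.valuation K (n : K) = v.intValuation ((n : ℤ) : 𝓞 K) := by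
    intro n
    rw [← v.valuation_of_algebraMap (K := K)]
    simp
  have hV : ∀ n : ℤ, v.valuation K (n : K) ≤ 1 := by
    intro n; rw [hVi]; exact v.intValuation_le_one _
  have hint' : ∀ z : ℤ, (z : 𝓞 K) ∈ v.asIdeal → (q : ℤ) ∣ z := by
    intro z hz
    by_contra hh
    obtain ⟨a, b, hab⟩ := (Irreducible.coprime_iff_not_dvd hqp.irreducible).mpr hh
    apply v.isPrime.ne_top
    rw [Ideal.eq_top_iff_one]
    have : (1 : 𝓞 K) = (a : 𝓞 K) * ((q : ℤ) : 𝓞 K) + (b : 𝓞 K) * (z : 𝓞 K) := by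
      exact_mod_cast hab.symm
    rw [this]
    exact Ideal.add_mem _ (Ideal.mul_mem_left _ _ hqP) (Ideal.mul_mem_left _ _ hz)
  have hone : ∀ z : ℤ, ¬ (q : ℤ) ∣ z → v.valuation K (z : K) = 1 := by
    intro z hz
    refine le_antisymm (hV z) (not_lt.mp fun h => hz (hint' z ?_))
    rw [hVi, v.intValuation_lt_one_iff_mem] at h
    exact h
  have hqmm : ¬ (q : ℤ) ∣ (m : ℤ) := fun h => hqm (Int.natCast_dvd_natCast.mp h)
  have hVq : v.valuation K ((q : ℤ) : K) < 1 := by
    rw [hVi, v.intValuation_lt_one_iff_mem]; exact hqP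
  have hVq' : v.valuation K (q : K) < 1 := by simpa using hVq
  have hq0 : v.valuation K (q : K) ≠ 0 :=
    (Valuation.ne_zero_iff _).mpr (by exact_mod_cast hq.ne_zero)
  have hVM : v.valuation K (M : K) = v.valuation K (q : K) := by
    rw [hM', Int.cast_mul, map_mul, hone M' hqM', mul_one]; simp
  have hVm : v.valuation K (m : K) = 1 := by simpa using hone m hqmm
  have h2 := core (v.valuation K) D c M q θ hV hVq' hq0 (hone c hqc) hVm hVM hθ hVθ
  have hq2 : ((q : ℤ) : 𝓞 K) ∈ v.asIdeal ^ 2 := by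
    rw [← v.intValuation_le_pow_iff_mem, ← hVi]
    have hθ0 : v.valuation K θ ≠ 0 := (lt_of_le_of_lt zero_le hVθ).ne'
    obtain ⟨n, hn⟩ : ∃ n : ℤ, v.valuation K θ = WithZero.exp n := ⟨_, (WithZero.exp_log hθ0).symm⟩
    have hn1 : 1 ≤ n := by
      rw [hn, ← WithZero.exp_zero, WithZero.exp_lt_exp] at hVθ
      omega
    have h5 : v.valuation K ((q : ℤ) : K) = WithZero.exp (-(((e - j : ℕ) : ℤ) * n)) := by
      have h6 : v.valuation K (q : K) * WithZero.exp (((e - j : ℕ) : ℤ) * n) = 1 := by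
        rw [← h2, hn, ← WithZero.exp_nsmul]; simp
      rw [Int.cast_natCast, WithZero.exp_neg]
      exact eq_inv_of_mul_eq_one_left h6
    rw [h5, WithZero.exp_le_exp]
    have h7 : (2 : ℤ) ≤ ((e - j : ℕ) : ℤ) := by omega
    have h8 : (2 : ℤ) * 1 ≤ ((e - j : ℕ) : ℤ) * n :=
      mul_le_mul h7 hn1 (by norm_num) (by omega)
    push_cast
    omega
  have hPmax : v.asIdeal.IsMaximal := v.isMaximal
  have hmax : (Ideal.span {(q : ℤ)}).IsMaximal :=
    PrincipalIdealRing.isMaximal_of_irreducible hqp.irreducible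
  have hPd : v.asIdeal ^ (2 - 1) ∣ differentIdeal ℤ (𝓞 K) := by
    refine pow_sub_one_dvd_differentIdeal ℤ (p := Ideal.span {(q : ℤ)}) v.asIdeal 2 ?_ ?_
    · rw [Ne, Ideal.span_singleton_eq_bot]
      exact hqp.ne_zero
    · rw [Ideal.map_span, Set.image_singleton, Ideal.dvd_span_singleton]
      simpa using hq2
  rw [show 2 - 1 = 1 by norm_num, pow_one] at hPd
  have h5 : Ideal.absNorm v.asIdeal ∣ (discr K).natAbs := by
    rw [← absNorm_differentIdeal K (𝓞 K)]
    exact map_dvd _ hPd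
  have h6 : (q : ℤ) ∣ (Ideal.absNorm v.asIdeal : ℤ) :=
    hint' _ (by exact_mod_cast Ideal.absNorm_mem v.asIdeal)
  have h7 : (Ideal.absNorm v.asIdeal : ℤ) ∣ discr K := Int.natCast_dvd.mpr h5
  exact h6.trans h7

end Pool.Agent.J4H57.LV
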